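import Pool.Agent.H51.MFL.S

/-!
# Board mfl (MP_84bfea_al), module EXX: the embedding of the families of elements of `S(V)`
-/

set_option autoImplicit false

open Module MvPolynomial

namespace Pool.MFL.EXX79

attribute [local instance 100] LieRing.ofAssociativeRing

/-- Evaluation of polynomials at commuting elements, the coefficients being central. -/
theorem ex_ev {S U σ : Type} [CommRing S] [Ring U] (f : S →+* U) (x : σ → U)
    (h1 : ∀ s l, f s * x l = x l * f s) (h2 : ∀ l m, x l * x m = x m * x l) :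
    ∃ e : MvPolynomial σ S →+* U, (∀ s, e (C s) = f s) ∧ ∀ l, e (X l) = x l := by
  obtain ⟨s, hs⟩ : ∃ s : Set U, s = Set.range f ∪ Set.range x := ⟨_, rfl⟩
  have hc : ∀ u ∈ s, ∀ v ∈ s, u * v = v * u := by
    intro u hu v hv
    rw [hs] at hu hv
    rcases hu with ⟨a, rfl⟩ | ⟨l, rfl⟩ <;> rcases hv with ⟨b, rfl⟩ | ⟨m, rfl⟩
    · rw [← map_mul, mul_comm, map_mul]
    · exact h1 a m
    · exact (h1 b l).symm
    · exact h2 l m
  have hf : ∀ a, f a ∈ Subring.closure s := fun a =>
    Subring.subset_closure (by rw [hs]; exact Or.inl ⟨a, rfl⟩)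
  have hx : ∀ l, x l ∈ Subring.closure s := fun l =>
    Subring.subset_closure (by rw [hs]; exact Or.inr ⟨l, rfl⟩)
  letI : CommRing (Subring.closure s) := Subring.closureCommRingOfComm hc
  obtain ⟨f', hf'⟩ : ∃ f' : S →+* Subring.closure s, ∀ a, (f' a : U) = f a :=
    ⟨f.codRestrict (Subring.closure s) hf, fun _ => rfl⟩
  refine ⟨(Subring.closure s).subtype.comp (eval₂Hom f' fun l => ⟨x l, hx l⟩), fun a => ?_,
    fun l => ?_⟩
  · rw [RingHom.comp_apply, eval₂Hom_C]
    exact hf' a
  · rw [RingHom.comp_apply, eval₂Hom_X']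
    rfl

end Pool.MFL.EXX79

namespace Pool.MFL

attribute [local instance 100] LieRing.ofAssociativeRing

open Pool.MFL.EXX79 in
/-- EXX: existence of the embedding. -/
theorem t_exx : EXXStmt := by
  intro R L σ τ _ _ _ _ _ b hb
  obtain ⟨e, he1, he2⟩ := ex_ev (S := Polynomial R)
    (U := Polynomial (UniversalEnvelopingAlgebra R L))
    (Polynomial.mapRingHom (algebraMap R (UniversalEnvelopingAlgebra R L)))
    (fun l : σ => Polynomial.C (UniversalEnvelopingAlgebra.ι R (b (Sum.inl l)))) (by
      intro f l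
      rw [Polynomial.coe_mapRingHom]
      ext n
      rw [Polynomial.coeff_mul_C, Polynomial.coeff_C_mul, Polynomial.coeff_map]
      exact Algebra.commutes _ _) (by
      intro l m
      rw [← Polynomial.C_mul, ← Polynomial.C_mul]
      apply congrArg Polynomial.C
      have h0 : ⁅b (Sum.inl l), b (Sum.inl m)⁆ = 0 := by
        rw [← b.sum_repr ⁅b (Sum.inl l), b (Sum.inl m)⁆]
        refine Finset.sum_eq_zero fun k _ => ?_
        have := hb.ab l m k
        rw [stc] at this
        rw [this, zero_smul]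
      have h1 : UniversalEnvelopingAlgebra.ι R (b (Sum.inl l)) *
          UniversalEnvelopingAlgebra.ι R (b (Sum.inl m)) -
          UniversalEnvelopingAlgebra.ι R (b (Sum.inl m)) *
          UniversalEnvelopingAlgebra.ι R (b (Sum.inl l)) = 0 := by
        have h2 : UniversalEnvelopingAlgebra.ι R ⁅b (Sum.inl l), b (Sum.inl m)⁆ =
            UniversalEnvelopingAlgebra.ι R (b (Sum.inl l)) *
            UniversalEnvelopingAlgebra.ι R (b (Sum.inl m)) -
            UniversalEnvelopingAlgebra.ι R (b (Sum.inl m)) *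
            UniversalEnvelopingAlgebra.ι R (b (Sum.inl l)) := by
          rw [LieHom.map_lie]
          rfl
        rw [← h2, h0, map_zero]
      exact sub_eq_zero.1 h1)
  exact ⟨e, ⟨fun f => by rw [he1]; rfl, fun l => he2 l⟩⟩

end Pool.MFL
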