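import Pool.Agent.H51.MFL.S

/-!
# Board mfl (MP_84bfea_al), module PBR: the Poincare-Birkhoff-Witt theorem over a commutative ring

The proofs of H3/MFQ/Ord.lean, H51/MFQ/PBA.lean and H3/MFQ/PBW.lean with the complex numbers
replaced by a commutative ring.
-/

set_option autoImplicit false

open Module MvPolynomial

namespace Pool.MFL.PBR79

open Pool.MFQ.Ord (mo mo_zero mo_head ex_head sum_single)

section alg

variable {R : Type} [CommRing R] {U : Type} [Ring U] [Algebra R U]

/-- The span of the ordered monomials of degree less than `k`. -/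
def low (R : Type) [CommRing R] {U : Type} [Ring U] [Algebra R U] {n : ℕ} (x : Fin n → U) (k : ℕ) : Submodule R U :=
  Submodule.span R {u | ∃ α : Fin n → ℕ, ∑ i, α i < k ∧ u = mo x α}

theorem low_mono {n : ℕ} (x : Fin n → U) {k l : ℕ} (h : k ≤ l) : low R x k ≤ low R x l :=
  Submodule.span_mono fun _ ⟨α, h1, h2⟩ => ⟨α, h1.trans_le h, h2⟩

theorem mem_low {n : ℕ} (x : Fin n → U) {k : ℕ} {α : Fin n → ℕ} (h : ∑ i, α i < k) :
    mo x α ∈ low R x k := Submodule.subset_span ⟨α, h, rfl⟩

/-- Multiplication of the ordered monomials of lower degree. -/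
theorem low_mul {n : ℕ} {x : Fin n → U} {k : ℕ} {i : Fin n}
    (h : ∀ α : Fin n → ℕ, ∑ j, α j < k → x i * mo x α ∈ low R x (∑ j, α j + 2)) {u : U}
    (hu : u ∈ low R x k) : x i * u ∈ low R x (k + 1) := by
  refine Submodule.span_induction (p := fun u _ => x i * u ∈ low R x (k + 1)) ?_ ?_ ?_ ?_ hu
  · rintro u ⟨α, h1, rfl⟩
    exact low_mono x (by omega) (h α h1)
  · rw [mul_zero]
    exact zero_mem _
  · intro u v _ _ h1 h2
    rw [mul_add]
    exact add_mem h1 h2
  · intro c u _ h1
    rw [mul_smul_comm]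
    exact Submodule.smul_mem _ c h1

/-- **The product with `x i`** is the ordered monomial, modulo lower degree. -/
theorem mo_swap {n : ℕ} {x : Fin n → U}
    (hx : ∀ i j, ∃ c : Fin n → R, x i * x j - x j * x i = ∑ k, c k • x k) (k : ℕ) :
    ∀ (i : Fin n) (α : Fin n → ℕ), ∑ j, α j = k →
      x i * mo x α - mo x (α + Pi.single i 1) ∈ low R x (k + 1) := by
  induction k using Nat.strong_induction_on with
  | _ k ih =>
  have hmul : ∀ (i : Fin n) (α : Fin n → ℕ), ∑ j, α j < k → x i * mo x α ∈
      low R x (∑ j, α j + 2) := fun i α h => by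
    have h1 := ih _ h i α rfl
    have h2 : x i * mo x α = (x i * mo x α - mo x (α + Pi.single i 1)) +
      mo x (α + Pi.single i 1) := (sub_add_cancel _ _).symm
    rw [h2]
    exact add_mem (low_mono x (by omega) h1) (mem_low x (by rw [sum_single]; omega))
  intro i α hα
  by_cases hz : ∀ j < i, α j = 0
  · rw [mo_head x i α hz, sub_self]
    exact zero_mem _
  · push Not at hz
    obtain ⟨i', hi', hαi'⟩ := hz
    obtain ⟨j, β, h1, h2, h3, h4, h5⟩ := ex_head hαi'
    have hji : j < i := h1.trans_lt hi'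
    have hβk : ∑ l, β l < k := by omega
    have e1 : mo x α = x j * mo x β := by rw [mo_head x j β h2, ← h4]
    have e2 : x j * mo x (β + Pi.single i 1) = mo x (α + Pi.single i 1) := by
      rw [mo_head x j (β + Pi.single i 1) fun l hl => by
        rw [Pi.add_apply, h2 l hl, Pi.single_eq_of_ne (hl.trans hji).ne, add_zero], h4,
        add_right_comm]
    obtain ⟨c, hc⟩ := hx i j
    have e3 : x i * mo x α - mo x (α + Pi.single i 1) =
        x j * (x i * mo x β - mo x (β + Pi.single i 1)) + ∑ l, c l • (x l * mo x β) := by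
      have e4 : ∑ l, c l • (x l * mo x β) = (x i * x j - x j * x i) * mo x β := by
        rw [hc, Finset.sum_mul]
        exact Finset.sum_congr rfl fun l _ => (smul_mul_assoc _ _ _).symm
      rw [e4, e1, ← e2, mul_sub, sub_mul]
      simp only [mul_assoc]
      abel
    rw [e3]
    refine add_mem ?_ (sum_mem fun l _ => Submodule.smul_mem _ _ ?_)
    · have h6 := ih _ hβk i β rfl
      have h7 := low_mul (k := ∑ l, β l + 1) (i := j) (fun α' hα' => hmul j α' (by omega)) h6
      exact low_mono x (by omega) h7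
    · exact low_mono x (by omega) (hmul l β hβk)

/-- The product with `x i`. -/
theorem mul_low {n : ℕ} {x : Fin n → U}
    (hx : ∀ i j, ∃ c : Fin n → R, x i * x j - x j * x i = ∑ k, c k • x k) {k : ℕ} (i : Fin n)
    {u : U} (hu : u ∈ low R x k) : x i * u ∈ low R x (k + 1) := by
  refine low_mul (fun α _ => ?_) hu
  have h1 := mo_swap hx _ i α rfl
  have h2 : x i * mo x α = (x i * mo x α - mo x (α + Pi.single i 1)) +
    mo x (α + Pi.single i 1) := (sub_add_cancel _ _).symm
  rw [h2]
  exact add_mem (low_mono x (by omega) h1) (mem_low x (by rw [sum_single]; omega))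

end alg

section lie

attribute [local instance 100] LieRing.ofAssociativeRing

variable {R : Type} [CommRing R] {𝔤 : Type} [LieRing 𝔤] [LieAlgebra R 𝔤]

/-- The elements of a basis in the enveloping algebra. -/
theorem comm_basis {n : ℕ} (b : Basis (Fin n) R 𝔤) (i j : Fin n) :
    UniversalEnvelopingAlgebra.ι R (b i) * UniversalEnvelopingAlgebra.ι R (b j) -
      UniversalEnvelopingAlgebra.ι R (b j) * UniversalEnvelopingAlgebra.ι R (b i) =
      ∑ k, b.repr ⁅b i, b j⁆ k • UniversalEnvelopingAlgebra.ι R (b k) := by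
  have h1 : UniversalEnvelopingAlgebra.ι R (b i) * UniversalEnvelopingAlgebra.ι R (b j) -
      UniversalEnvelopingAlgebra.ι R (b j) * UniversalEnvelopingAlgebra.ι R (b i) =
      UniversalEnvelopingAlgebra.ι R ⁅b i, b j⁆ := by
    rw [LieHom.map_lie]
    rfl
  rw [h1]
  conv_lhs => rw [← b.sum_repr ⁅b i, b j⁆]
  rw [map_sum]
  exact Finset.sum_congr rfl fun k _ => map_smul _ _ _

/-- The enveloping algebra is generated by the Lie algebra. -/
theorem uea_top {A : Subalgebra R (UniversalEnvelopingAlgebra R 𝔤)}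
    (h : ∀ y : 𝔤, UniversalEnvelopingAlgebra.ι R y ∈ A) (u : UniversalEnvelopingAlgebra R 𝔤) :
    u ∈ A := by
  obtain ⟨f, hf⟩ : ∃ f : 𝔤 →ₗ⁅R⁆ A, ∀ y, (f y : UniversalEnvelopingAlgebra R 𝔤) =
      UniversalEnvelopingAlgebra.ι R y :=
    ⟨{ toFun := fun y => ⟨UniversalEnvelopingAlgebra.ι R y, h y⟩
       map_add' := fun y z => Subtype.ext (map_add _ _ _)
       map_smul' := fun c y => Subtype.ext (map_smul _ _ _)
       map_lie' := fun {y z} => Subtype.ext (LieHom.map_lie _ _ _) }, fun _ => rfl⟩
  have h1 : A.val.comp (UniversalEnvelopingAlgebra.lift R f) =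
      AlgHom.id R (UniversalEnvelopingAlgebra R 𝔤) := by
    refine UniversalEnvelopingAlgebra.hom_ext R (LieHom.ext fun y => ?_)
    show ((UniversalEnvelopingAlgebra.lift R f (UniversalEnvelopingAlgebra.ι R y) : A) :
      UniversalEnvelopingAlgebra R 𝔤) = UniversalEnvelopingAlgebra.ι R y
    rw [UniversalEnvelopingAlgebra.lift_ι_apply, hf]
  have h2 := AlgHom.congr_fun h1 u
  rw [AlgHom.comp_apply, AlgHom.id_apply] at h2
  rw [← h2]
  exact (UniversalEnvelopingAlgebra.lift R f u).2

/-- **The ordered monomials span the enveloping algebra.** -/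
theorem mo_top {n : ℕ} (b : Basis (Fin n) R 𝔤) :
    Submodule.span R (Set.range (mo fun i => UniversalEnvelopingAlgebra.ι R (b i))) = ⊤ := by
  obtain ⟨x, hxd⟩ : ∃ x : Fin n → UniversalEnvelopingAlgebra R 𝔤,
    x = fun i => UniversalEnvelopingAlgebra.ι R (b i) := ⟨_, rfl⟩
  have hx : ∀ i j, ∃ c : Fin n → R, x i * x j - x j * x i = ∑ k, c k • x k := fun i j => by
    rw [hxd]
    exact ⟨_, comm_basis b i j⟩
  rw [← hxd]
  have hlow : ∀ k, low R x k ≤ Submodule.span R (Set.range (mo x)) := fun k =>
    Submodule.span_mono fun u ⟨α, _, h⟩ => ⟨α, h.symm⟩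
  have hm : ∀ (i : Fin n) (u : UniversalEnvelopingAlgebra R 𝔤),
      u ∈ Submodule.span R (Set.range (mo x)) →
      x i * u ∈ Submodule.span R (Set.range (mo x)) := by
    intro i u hu
    refine Submodule.span_induction (p := fun u _ => x i * u ∈
      Submodule.span R (Set.range (mo x))) ?_ ?_ ?_ ?_ hu
    · rintro u ⟨α, rfl⟩
      exact hlow _ (mul_low hx i (mem_low x (Nat.lt_succ_self _)))
    · rw [mul_zero]
      exact zero_mem _
    · intro u v _ _ h1 h2
      rw [mul_add]
      exact add_mem h1 h2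
    · intro c u _ h1
      rw [mul_smul_comm]
      exact Submodule.smul_mem _ c h1
  obtain ⟨A, hA⟩ : ∃ A : Subalgebra R (UniversalEnvelopingAlgebra R 𝔤), ∀ u, u ∈ A ↔
      ∀ v ∈ Submodule.span R (Set.range (mo x)), u * v ∈ Submodule.span R (Set.range (mo x)) :=
    ⟨{ carrier := {u | ∀ v ∈ Submodule.span R (Set.range (mo x)),
          u * v ∈ Submodule.span R (Set.range (mo x))}
       mul_mem' := fun {u v} h1 h2 w hw => by
         rw [mul_assoc]
         exact h1 _ (h2 _ hw)
       add_mem' := fun {u v} h1 h2 w hw => by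
         rw [add_mul]
         exact add_mem (h1 _ hw) (h2 _ hw)
       algebraMap_mem' := fun c w hw => by
         rw [← Algebra.smul_def]
         exact Submodule.smul_mem _ c hw }, fun _ => Iff.rfl⟩
  rw [eq_top_iff]
  intro u _
  have h1 : u ∈ A := uea_top (fun y => by
    rw [hA]
    intro v hv
    rw [← b.sum_repr y, map_sum, Finset.sum_mul]
    refine sum_mem fun i _ => ?_
    rw [map_smul, smul_mul_assoc]
    refine Submodule.smul_mem _ _ ?_
    have := hm i v hv
    rw [hxd] at this ⊢
    exact this) u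
  have h2 := (hA u).1 h1 1 (Submodule.subset_span ⟨0, mo_zero x⟩)
  rwa [mul_one] at h2

end lie


section rep

attribute [local instance 100] LieRing.ofAssociativeRing

variable {R : Type} [CommRing R] {𝔤 : Type} [LieRing 𝔤] [LieAlgebra R 𝔤]

/-- Elements with the commutation relations of a basis give a representation of the enveloping
algebra. -/
theorem ex_rep {n : ℕ} (b : Basis (Fin n) R 𝔤) {A : Type} [Ring A] [Algebra R A] (T : Fin n → A)
    (hT : ∀ i j, T i * T j - T j * T i = ∑ k, b.repr ⁅b i, b j⁆ k • T k) :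
    ∃ F : UniversalEnvelopingAlgebra R 𝔤 →ₐ[R] A,
      ∀ i, F (UniversalEnvelopingAlgebra.ι R (b i)) = T i := by
  obtain ⟨f, hf⟩ : ∃ f : 𝔤 →ₗ[R] A, f = b.constr R T := ⟨_, rfl⟩
  have hfb : ∀ i, f (b i) = T i := fun i => by
    rw [hf, Basis.constr_basis]
  have h1 : ∀ i j, f ⁅b i, b j⁆ = f (b i) * f (b j) - f (b j) * f (b i) := by
    intro i j
    conv_lhs => rw [← b.sum_repr ⁅b i, b j⁆]
    rw [hfb, hfb, hT, map_sum]
    exact Finset.sum_congr rfl fun k _ => by rw [map_smul, hfb]
  have h2 : ∀ x y : 𝔤, f ⁅x, y⁆ = f x * f y - f y * f x := by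
    intro x y
    rw [← b.sum_repr x, ← b.sum_repr y]
    simp only [sum_lie, lie_sum, smul_lie, lie_smul, map_sum, map_smul, Finset.sum_mul,
      Finset.mul_sum, smul_mul_assoc, mul_smul_comm, h1, smul_sub, Finset.sum_sub_distrib]
    refine congrArg₂ (· - ·) rfl ?_
    simp only [Finset.smul_sum]
    rw [Finset.sum_comm]
    exact Finset.sum_congr rfl fun j _ => Finset.sum_congr rfl fun i _ => smul_comm _ _ _
  refine ⟨UniversalEnvelopingAlgebra.lift R { f with map_lie' := fun {x y} => h2 x y },
    fun i => ?_⟩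
  rw [UniversalEnvelopingAlgebra.lift_ι_apply]
  exact hfb i

/-- The ordered product applied to `1`. -/
theorem mo_apply {n : ℕ} {A : Type} [Ring A] [Algebra R A] {x : Fin n → A}
    {F : A →ₐ[R] Module.End R (MvPolynomial (Fin n) R)}
    (hF : ∀ (i : Fin n) (α : Fin n →₀ ℕ), (∀ j ∈ α.support, i ≤ j) →
      F (x i) (monomial α 1) = monomial (α + Finsupp.single i 1) 1) (k : ℕ) :
    ∀ α : Fin n → ℕ, ∑ i, α i = k →
      F (mo x α) 1 = monomial (Finsupp.equivFunOnFinite.symm α) (1 : R) := by
  induction k with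
  | zero =>
    intro α hα
    have h1 : α = 0 := by
      funext i
      exact (Finset.sum_eq_zero_iff.1 hα) i (Finset.mem_univ i)
    rw [h1, mo_zero, map_one F]
    have h2 : (Finsupp.equivFunOnFinite.symm (0 : Fin n → ℕ) : Fin n →₀ ℕ) = 0 := by
      ext i
      rfl
    rw [h2]
    rfl
  | succ k ih =>
    intro α hα
    have h1 : ∃ i, α i ≠ 0 := by
      by_contra hcon
      push Not at hcon
      rw [Finset.sum_eq_zero fun i _ => hcon i] at hα
      omega
    obtain ⟨i, hi⟩ := h1
    obtain ⟨j, β, -, h2, -, h4, h5⟩ := ex_head hi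
    have h6 := ih β (by omega)
    rw [h4, ← mo_head x j β h2, map_mul F, Module.End.mul_apply, h6, hF]
    · apply congrArg (fun s => monomial s (1 : R))
      ext l
      rw [Finsupp.add_apply]
      show β l + (Finsupp.single j 1 : Fin n →₀ ℕ) l = (β + Pi.single j 1 : Fin n → ℕ) l
      rw [Pi.add_apply, Finsupp.single_apply, Pi.single_apply]
      simp only [eq_comm]
    · intro l hl
      by_contra hcon
      rw [Finsupp.mem_support_iff] at hl
      exact hl (h2 l (not_le.1 hcon))


end rep

namespace PB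

variable {n : ℕ} {R : Type} [CommRing R]

/-- Linear extension from monomials. -/
noncomputable def lin (f : (Fin n →₀ ℕ) → MvPolynomial (Fin n) R) :
    MvPolynomial (Fin n) R →ₗ[R] MvPolynomial (Fin n) R :=
  (MvPolynomial.basisMonomials (Fin n) R).constr R f

lemma lin_mon (f : (Fin n →₀ ℕ) → MvPolynomial (Fin n) R) (α : Fin n →₀ ℕ) :
    lin f (monomial α 1) = f α := by
  have h := (MvPolynomial.basisMonomials (Fin n) R).constr_basis R f α
  rwa [MvPolynomial.coe_basisMonomials] at h

/-- The span of the monomials of degree at most `p`. -/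
noncomputable def FF (R : Type) [CommRing R] (n p : ℕ) : Submodule R (MvPolynomial (Fin n) R) :=
  Submodule.span R {v | ∃ γ : Fin n →₀ ℕ, γ.degree ≤ p ∧ v = monomial γ 1}

lemma mon_mem {p : ℕ} {γ : Fin n →₀ ℕ} (h : γ.degree ≤ p) :
    (monomial γ 1 : MvPolynomial (Fin n) R) ∈ FF R n p :=
  Submodule.subset_span ⟨γ, h, rfl⟩

lemma FF_mono {p q : ℕ} (h : p ≤ q) : FF R n p ≤ FF R n q := by
  apply Submodule.span_mono
  rintro v ⟨γ, h1, rfl⟩
  exact ⟨γ, h1.trans h, rfl⟩

/-- The first index of the support. -/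
noncomputable def mn (i : Fin n) (α : Fin n →₀ ℕ) : Fin n :=
  if h : α.support.Nonempty then α.support.min' h else i

/-- The recursion. -/
noncomputable def Tp (c : Fin n → Fin n → Fin n → R) :
    ℕ → Fin n → (Fin n →₀ ℕ) → MvPolynomial (Fin n) R
  | 0, i, α => monomial (α + Finsupp.single i 1) 1
  | p + 1, i, α =>
    if α.degree ≤ p then Tp c p i α
    else if ∀ j ∈ α.support, i ≤ j then monomial (α + Finsupp.single i 1) 1
    else
      monomial (α + Finsupp.single i 1) 1 +
        lin (Tp c p (mn i α))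
          (Tp c p i (α - Finsupp.single (mn i α) 1) -
            monomial (α - Finsupp.single (mn i α) 1 + Finsupp.single i 1) 1) +
        ∑ k, c i (mn i α) k • Tp c p k (α - Finsupp.single (mn i α) 1)

lemma Tp_stab (c : Fin n → Fin n → Fin n → R) (i : Fin n) (α : Fin n →₀ ℕ) :
    ∀ q, α.degree ≤ q → Tp c q i α = Tp c α.degree i α := by
  intro q
  induction q with
  | zero =>
    intro h
    rw [Nat.le_zero.mp h]
  | succ q ih =>
    intro h
    rcases Nat.lt_or_ge q α.degree with h1 | h1
    · have h2 : α.degree = q + 1 := by omega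
      rw [h2]
    · rw [Tp, if_pos h1]
      exact ih h1

/-- The operators. -/
noncomputable def TT (c : Fin n → Fin n → Fin n → R) (i : Fin n) :
    MvPolynomial (Fin n) R →ₗ[R] MvPolynomial (Fin n) R :=
  lin (fun α => Tp c α.degree i α)

lemma TT_mon (c : Fin n → Fin n → Fin n → R) (i : Fin n) (α : Fin n →₀ ℕ) {q : ℕ}
    (h : α.degree ≤ q) : TT c i (monomial α 1) = Tp c q i α := by
  rw [TT, lin_mon, Tp_stab c i α q h]

lemma lin_eq (c : Fin n → Fin n → Fin n → R) (i : Fin n) (q : ℕ) (v : MvPolynomial (Fin n) R)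
    (hv : v ∈ FF R n q) : lin (Tp c q i) v = TT c i v := by
  refine Submodule.span_induction (p := fun v _ => lin (Tp c q i) v = TT c i v) ?_ ?_ ?_ ?_ hv
  · rintro v ⟨γ, h1, rfl⟩
    rw [lin_mon, TT_mon c i γ h1]
  · rw [map_zero, map_zero]
  · intro x y _ _ hx hy
    rw [map_add, map_add, hx, hy]
  · intro r x _ hx
    rw [map_smul, map_smul, hx]

/-- `i ≤ α`: multiplication. -/
lemma TT_le (c : Fin n → Fin n → Fin n → R) (i : Fin n) (α : Fin n →₀ ℕ)
    (h : ∀ j ∈ α.support, i ≤ j) :
    TT c i (monomial α 1) = monomial (α + Finsupp.single i 1) 1 := by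
  rcases Nat.eq_zero_or_pos α.degree with h0 | h0
  · rw [TT_mon c i α (le_of_eq h0), Tp]
  · obtain ⟨p, hp⟩ : ∃ p, α.degree = p + 1 := ⟨α.degree - 1, by omega⟩
    rw [TT_mon c i α (le_of_eq hp), Tp, if_neg (by omega), if_pos h]

lemma exists_lt {i : Fin n} {α : Fin n →₀ ℕ} (h : ¬ ∀ j ∈ α.support, i ≤ j) :
    mn i α ∈ α.support ∧ mn i α < i ∧ ∀ j ∈ α.support, mn i α ≤ j := by
  push Not at h
  obtain ⟨j, hj, hji⟩ := h
  have hne : α.support.Nonempty := ⟨j, hj⟩
  rw [mn, dif_pos hne]
  exact ⟨Finset.min'_mem _ _, lt_of_le_of_lt (Finset.min'_le _ _ hj) hji,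
    fun k hk => Finset.min'_le _ _ hk⟩

lemma deg_sub {α : Fin n →₀ ℕ} {j : Fin n} (h : j ∈ α.support) :
    α - Finsupp.single j 1 + Finsupp.single j 1 = α ∧
      (α - Finsupp.single j 1).degree + 1 = α.degree := by
  have h1 : α - Finsupp.single j 1 + Finsupp.single j 1 = α := by
    apply tsub_add_cancel_of_le
    rw [Finsupp.single_le_iff]
    exact Nat.one_le_iff_ne_zero.mpr (Finsupp.mem_support_iff.mp h)
  refine ⟨h1, ?_⟩
  conv_rhs => rw [← h1]
  rw [map_add, Finsupp.degree_single]

lemma TT_rec (c : Fin n → Fin n → Fin n → R) (i : Fin n) (α : Fin n →₀ ℕ) (p : ℕ)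
    (hp : α.degree = p + 1) (h : ¬ ∀ j ∈ α.support, i ≤ j)
    (hw : TT c i (monomial (α - Finsupp.single (mn i α) 1) 1) -
      monomial (α - Finsupp.single (mn i α) 1 + Finsupp.single i 1) 1 ∈ FF R n p) :
    TT c i (monomial α 1) = monomial (α + Finsupp.single i 1) 1 +
      TT c (mn i α) (TT c i (monomial (α - Finsupp.single (mn i α) 1) 1) -
        monomial (α - Finsupp.single (mn i α) 1 + Finsupp.single i 1) 1) +
      ∑ k, c i (mn i α) k • TT c k (monomial (α - Finsupp.single (mn i α) 1) 1) := by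
  have hd := (deg_sub (exists_lt h).1).2
  have hd' : (α - Finsupp.single (mn i α) 1).degree ≤ p := by omega
  rw [TT_mon c i α (le_of_eq hp), Tp, if_neg (by omega), if_neg h]
  have e1 : ∀ k, Tp c p k (α - Finsupp.single (mn i α) 1) =
      TT c k (monomial (α - Finsupp.single (mn i α) 1) 1) :=
    fun k => (TT_mon c k _ hd').symm
  simp only [e1]
  rw [lin_eq c (mn i α) p _ hw]

lemma TT_deg (c : Fin n → Fin n → Fin n → R) : ∀ (p : ℕ) (i : Fin n) (α : Fin n →₀ ℕ),
    α.degree ≤ p → TT c i (monomial α 1) - monomial (α + Finsupp.single i 1) 1 ∈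
      FF R n α.degree := by
  intro p
  induction p with
  | zero =>
    intro i α h
    have h0 : α.degree = 0 := Nat.le_zero.mp h
    have : α = 0 := by
      have := (Finsupp.degree_eq_zero_iff α).mp h0
      exact this
    rw [TT_le c i α (by intro j hj; rw [this] at hj; simp at hj), sub_self]
    exact Submodule.zero_mem _
  | succ p ih =>
    intro i α h
    rcases Nat.lt_or_ge α.degree (p + 1) with h1 | h1
    · exact ih i α (by omega)
    · have hp : α.degree = p + 1 := le_antisymm h h1
      by_cases hi : ∀ j ∈ α.support, i ≤ j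
      · rw [TT_le c i α hi, sub_self]
        exact Submodule.zero_mem _
      · have hd := (deg_sub (exists_lt hi).1).2
        have hdp : (α - Finsupp.single (mn i α) 1).degree = p := by omega
        have hw := ih i (α - Finsupp.single (mn i α) 1) (by omega)
        rw [hdp] at hw
        rw [TT_rec c i α p hp hi hw, hp]
        have hmap : ∀ (j : Fin n) (v : MvPolynomial (Fin n) R), v ∈ FF R n p →
            TT c j v ∈ FF R n (p + 1) := by
          intro j v hv
          refine Submodule.span_induction (p := fun v _ => TT c j v ∈ FF R n (p + 1))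
            ?_ ?_ ?_ ?_ hv
          · rintro v ⟨γ, h1, rfl⟩
            have h2 := ih j γ h1
            have h3 : TT c j (monomial γ 1) =
                (TT c j (monomial γ 1) - monomial (γ + Finsupp.single j 1) 1) +
                  monomial (γ + Finsupp.single j 1) 1 := by abel
            rw [h3]
            refine Submodule.add_mem _ (FF_mono (by omega) h2) (mon_mem ?_)
            rw [map_add, Finsupp.degree_single]
            omega
          · rw [map_zero]
            exact Submodule.zero_mem _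
          · intro x y _ _ hx hy
            rw [map_add]
            exact Submodule.add_mem _ hx hy
          · intro r x _ hx
            rw [map_smul]
            exact Submodule.smul_mem _ _ hx
        have e : monomial (α + Finsupp.single i 1) (1 : R) +
            TT c (mn i α) (TT c i (monomial (α - Finsupp.single (mn i α) 1) 1) -
              monomial (α - Finsupp.single (mn i α) 1 + Finsupp.single i 1) 1) +
            ∑ k, c i (mn i α) k • TT c k (monomial (α - Finsupp.single (mn i α) 1) 1) -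
            monomial (α + Finsupp.single i 1) 1 =
            TT c (mn i α) (TT c i (monomial (α - Finsupp.single (mn i α) 1) 1) -
              monomial (α - Finsupp.single (mn i α) 1 + Finsupp.single i 1) 1) +
            ∑ k, c i (mn i α) k • TT c k (monomial (α - Finsupp.single (mn i α) 1) 1) := by
          abel
        rw [e]
        refine Submodule.add_mem _ (hmap _ _ hw) (Submodule.sum_mem _ fun k _ =>
          Submodule.smul_mem _ _ (hmap _ _ (mon_mem (by omega))))

/-- (E3) -/
lemma TT_swap (c : Fin n → Fin n → Fin n → R) (i j : Fin n) (β : Fin n →₀ ℕ) (hji : j < i)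
    (hj : ∀ k ∈ β.support, j ≤ k) :
    TT c i (TT c j (monomial β 1)) = TT c j (TT c i (monomial β 1)) +
      ∑ k, c i j k • TT c k (monomial β 1) := by
  rw [TT_le c j β hj]
  set α := β + Finsupp.single j 1 with hα
  have hjα : j ∈ α.support := by
    rw [Finsupp.mem_support_iff, hα, Finsupp.add_apply, Finsupp.single_eq_same]
    omega
  have hi : ¬ ∀ k ∈ α.support, i ≤ k := fun h => absurd (h j hjα) (not_le.mpr hji)
  have hsub : ∀ k ∈ α.support, j ≤ k := by
    intro k hk
    rw [hα] at hk
    rcases Finset.mem_union.mp (Finsupp.support_add hk) with h1 | h1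
    · exact hj k h1
    · rw [Finset.mem_singleton.mp (Finsupp.support_single_subset h1)]
  have hmn : mn i α = j := by
    have h1 := exists_lt hi
    exact le_antisymm (h1.2.2 j hjα) (hsub _ h1.1)
  have hβ : α - Finsupp.single j 1 = β := by rw [hα, add_tsub_cancel_right]
  have hdeg : α.degree = β.degree + 1 := by rw [hα, map_add, Finsupp.degree_single]
  have hw := TT_deg c β.degree i β le_rfl
  have hrec := TT_rec c i α β.degree hdeg hi (by rw [hmn, hβ]; exact hw)
  rw [hmn, hβ] at hrec
  rw [hrec, map_sub]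
  have h2 : TT c j (monomial (β + Finsupp.single i 1) 1) =
      monomial (α + Finsupp.single i 1) 1 := by
    rw [TT_le c j _ ?_, hα]
    · congr 1
      abel_nf
    · intro k hk
      rcases Finset.mem_union.mp (Finsupp.support_add hk) with h1 | h1
      · exact hj k h1
      · rw [Finset.mem_singleton.mp (Finsupp.support_single_subset h1)]
        exact hji.le
  rw [h2]
  abel

variable {𝔤 : Type} [LieRing 𝔤] [LieAlgebra R 𝔤]

/-- The structure constants. -/
noncomputable def cc (b : Basis (Fin n) R 𝔤) (i j k : Fin n) : R := b.repr ⁅b i, b j⁆ k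

/-- The action of the Lie algebra. -/
noncomputable def SS (b : Basis (Fin n) R 𝔤) : 𝔤 →ₗ[R] Module.End R (MvPolynomial (Fin n) R) :=
  b.constr R (fun i => TT (cc b) i)

lemma SS_b (b : Basis (Fin n) R 𝔤) (i : Fin n) : SS b (b i) = TT (cc b) i := by
  rw [SS, Basis.constr_basis]

lemma SS_br (b : Basis (Fin n) R 𝔤) (i j : Fin n) :
    SS b ⁅b i, b j⁆ = ∑ k, cc b i j k • TT (cc b) k := by
  have h := b.sum_repr ⁅b i, b j⁆
  conv_lhs => rw [← h]
  rw [map_sum]
  refine Finset.sum_congr rfl fun k _ => ?_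
  rw [map_smul, SS_b]
  rfl

lemma SS_br_apply (b : Basis (Fin n) R 𝔤) (i j : Fin n) (v : MvPolynomial (Fin n) R) :
    SS b ⁅b i, b j⁆ v = ∑ k, cc b i j k • TT (cc b) k v := by
  rw [SS_br, LinearMap.sum_apply]
  rfl

/-- The commutation relation at a vector. -/
def Comm (b : Basis (Fin n) R 𝔤) (v : MvPolynomial (Fin n) R) : Prop :=
  ∀ x y : 𝔤, SS b x (SS b y v) - SS b y (SS b x v) = SS b ⁅x, y⁆ v

lemma Comm_of_basis (b : Basis (Fin n) R 𝔤) (v : MvPolynomial (Fin n) R)
    (h : ∀ i j, SS b (b i) (SS b (b j) v) - SS b (b j) (SS b (b i) v) = SS b ⁅b i, b j⁆ v) :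
    Comm b v := by
  intro x y
  have hx : x ∈ Submodule.span R (Set.range b) := by rw [b.span_eq]; trivial
  have hy : y ∈ Submodule.span R (Set.range b) := by rw [b.span_eq]; trivial
  refine Submodule.span_induction (p := fun x _ => SS b x (SS b y v) - SS b y (SS b x v) =
    SS b ⁅x, y⁆ v) ?_ ?_ ?_ ?_ hx
  · rintro x ⟨i, rfl⟩
    refine Submodule.span_induction (p := fun y _ => SS b (b i) (SS b y v) -
      SS b y (SS b (b i) v) = SS b ⁅b i, y⁆ v) ?_ ?_ ?_ ?_ hy
    · rintro y ⟨j, rfl⟩
      exact h i j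
    · simp
    · intro u w _ _ hu hw
      rw [lie_add, map_add, map_add, LinearMap.add_apply, LinearMap.add_apply,
        LinearMap.add_apply, map_add, ← hu, ← hw]
      abel
    · intro r u _ hu
      rw [lie_smul, map_smul, map_smul, LinearMap.smul_apply, LinearMap.smul_apply,
        LinearMap.smul_apply, map_smul, ← hu, smul_sub]
  · simp
  · intro u w _ _ hu hw
    rw [add_lie, map_add, map_add, LinearMap.add_apply, LinearMap.add_apply,
      LinearMap.add_apply, map_add, ← hu, ← hw]
    abel
  · intro r u _ hu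
    rw [smul_lie, map_smul, map_smul, LinearMap.smul_apply, LinearMap.smul_apply,
      LinearMap.smul_apply, map_smul, ← hu, smul_sub]

lemma Comm_span (b : Basis (Fin n) R 𝔤) (p : ℕ)
    (h : ∀ γ : Fin n →₀ ℕ, γ.degree ≤ p → Comm b (monomial γ 1))
    (v : MvPolynomial (Fin n) R) (hv : v ∈ FF R n p) : Comm b v := by
  refine Submodule.span_induction (p := fun v _ => Comm b v) ?_ ?_ ?_ ?_ hv
  · rintro v ⟨γ, h1, rfl⟩
    exact h γ h1
  · intro x y
    simp
  · intro u w _ _ hu hw x y
    have h1 := hu x y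
    have h2 := hw x y
    simp only [map_add]
    rw [← h1, ← h2]
    abel
  · intro r u _ hu x y
    have h1 := hu x y
    simp only [map_smul]
    rw [← h1, smul_sub]

lemma step (b : Basis (Fin n) R 𝔤) (α : Fin n →₀ ℕ) (p : ℕ) (hα : α.degree ≤ p)
    (IH : ∀ q < p, ∀ γ : Fin n →₀ ℕ, γ.degree ≤ q → Comm b (monomial γ 1))
    (i j : Fin n)
    (hm : ∃ m ∈ α.support, m < i ∧ m < j ∧ ∀ k ∈ α.support, m ≤ k) :
    SS b (b i) (SS b (b j) (monomial α 1)) - SS b (b j) (SS b (b i) (monomial α 1)) =
        SS b ⁅b i, b j⁆ (monomial α 1) := by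
  obtain ⟨m, hmα, hmi, hmj, hmk⟩ := hm
  obtain ⟨hβ, hdeg⟩ := deg_sub hmα
  set β := α - Finsupp.single m 1 with hβdef
  have hβlt : β.degree < p := by omega
  have hmβ : ∀ k ∈ β.support, m ≤ k := by
    intro k hk
    apply hmk
    rw [← hβ]
    rw [Finsupp.mem_support_iff] at hk ⊢
    rw [Finsupp.add_apply]
    omega
  have hadd : ∀ (l : Fin n), m < l → ∀ k ∈ (β + Finsupp.single l 1).support, m ≤ k := by
    intro l hl k hk
    rcases Finset.mem_union.mp (Finsupp.support_add hk) with h1 | h1
    · exact hmβ k h1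
    · rw [Finset.mem_singleton.mp (Finsupp.support_single_subset h1)]
      exact hl.le
  have hTm : monomial α (1 : R) = SS b (b m) (monomial β 1) := by
    rw [SS_b, TT_le (cc b) m β hmβ, hβ]
  have Cβ : Comm b (monomial β 1) := IH β.degree hβlt β le_rfl
  -- the main computation
  have swap : ∀ l l' : Fin n, m < l → m < l' →
      SS b (b l) (SS b (b m) (SS b (b l') (monomial β 1))) =
        SS b (b m) (SS b (b l) (SS b (b l') (monomial β 1))) +
          SS b ⁅b l, b m⁆ (SS b (b l') (monomial β 1)) := by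
    intro l l' hl hl'
    have hw := TT_deg (cc b) β.degree l' β le_rfl
    have hC : Comm b (TT (cc b) l' (monomial β 1) - monomial (β + Finsupp.single l' 1) 1) :=
      Comm_span b β.degree (fun γ hγ => IH β.degree hβlt γ hγ) _ hw
    have h1 := hC (b l) (b m)
    have h2 := TT_swap (cc b) l m (β + Finsupp.single l' 1) hl (hadd l' hl')
    rw [← SS_br_apply, ← SS_b, ← SS_b] at h2
    have h3 : SS b (b l') (monomial β 1) =
        (TT (cc b) l' (monomial β 1) - monomial (β + Finsupp.single l' 1) 1) +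
          monomial (β + Finsupp.single l' 1) 1 := by
      rw [SS_b]
      abel
    rw [h3]
    generalize (TT (cc b) l' (monomial β 1) - monomial (β + Finsupp.single l' 1) 1) = w at h1 ⊢
    generalize (monomial (β + Finsupp.single l' 1) 1 : MvPolynomial (Fin n) R) = z at h2 ⊢
    simp only [map_add]
    rw [h2]
    rw [sub_eq_iff_eq_add] at h1
    rw [h1]
    abel
  have e1 : ∀ l l' : Fin n, m < l → m < l' →
      SS b (b l) (SS b (b l') (monomial α 1)) =
        SS b (b m) (SS b (b l) (SS b (b l') (monomial β 1))) +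
          SS b ⁅b l, b m⁆ (SS b (b l') (monomial β 1)) +
          SS b (b l) (SS b ⁅b l', b m⁆ (monomial β 1)) := by
    intro l l' hl hl'
    have h1 := Cβ (b l') (b m)
    rw [sub_eq_iff_eq_add] at h1
    rw [hTm, h1, map_add, swap l l' hl hl']
    abel
  rw [e1 i j hmi hmj, e1 j i hmj hmi]
  have c1 := Cβ (b i) (b j)
  have c2 := Cβ ⁅b i, b m⁆ (b j)
  have c3 := Cβ (b i) ⁅b j, b m⁆
  have c4 := Cβ ⁅b i, b j⁆ (b m)
  have jac : ⁅⁅b i, b j⁆, b m⁆ = ⁅⁅b i, b m⁆, b j⁆ + ⁅b i, ⁅b j, b m⁆⁆ := by
    rw [leibniz_lie (b i) (b j) (b m), ← lie_skew (b j) ⁅b i, b m⁆]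
    abel
  rw [jac, map_add, LinearMap.add_apply, ← c2, ← c3] at c4
  have c1' := congrArg (SS b (b m)) c1
  rw [map_sub] at c1'
  rw [hTm]
  rw [sub_eq_iff_eq_add] at c4
  rw [c4, ← c1']
  abel

lemma comm_mon (b : Basis (Fin n) R 𝔤) : ∀ (p : ℕ) (α : Fin n →₀ ℕ), α.degree ≤ p →
    Comm b (monomial α 1) := by
  intro p
  induction p using Nat.strong_induction_on with
  | _ p IH =>
  intro α hα
  apply Comm_of_basis
  have key : ∀ i j : Fin n, j < i → (∀ k ∈ α.support, j ≤ k) →
      SS b (b i) (SS b (b j) (monomial α 1)) - SS b (b j) (SS b (b i) (monomial α 1)) =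
        SS b ⁅b i, b j⁆ (monomial α 1) := by
    intro i j hji hj
    rw [SS_br_apply, SS_b, SS_b, TT_swap (cc b) i j α hji hj]
    abel
  intro i j
  rcases lt_trichotomy j i with hji | hji | hji
  · by_cases hj : ∀ k ∈ α.support, j ≤ k
    · exact key i j hji hj
    · exact step b α p hα IH i j (by
        have h := exists_lt hj
        exact ⟨mn j α, h.1, h.2.1.trans hji, h.2.1, h.2.2⟩)
  · subst hji
    rw [sub_self, lie_self, map_zero, LinearMap.zero_apply]
  · by_cases hi : ∀ k ∈ α.support, i ≤ k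
    · have h := key j i hji hi
      rw [← lie_skew, map_neg, LinearMap.neg_apply, ← h]
      abel
    · exact step b α p hα IH i j (by
        have h := exists_lt hi
        exact ⟨mn i α, h.1, h.2.1, h.2.1.trans hji, h.2.2⟩)


end PB

end Pool.MFL.PBR79

namespace Pool.MFL

open Pool.MFQ Pool.MFM Pool.MFL.PBR79 in
/-- PBR: the Poincare-Birkhoff-Witt theorem over a commutative ring. -/
theorem t_pbr : PBRStmt := by
  intro R L _ _ _ n b
  obtain ⟨x, hx⟩ : ∃ x : Fin n → UniversalEnvelopingAlgebra R L,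
    x = fun i => UniversalEnvelopingAlgebra.ι R (b i) := ⟨_, rfl⟩
  have hpm : ∀ α : Fin n →₀ ℕ, pm b (monomial α 1) = Ord.mo x α := by
    intro α
    rw [pm]
    have h := (MvPolynomial.basisMonomials (Fin n) R).constr_basis R
      (fun α : Fin n →₀ ℕ => Ord.mo (fun i => UniversalEnvelopingAlgebra.ι R (b i)) α) α
    rw [MvPolynomial.coe_basisMonomials] at h
    rw [h, hx]
  constructor
  · have hT : ∀ i j, PB.TT (PB.cc b) i * PB.TT (PB.cc b) j - PB.TT (PB.cc b) j * PB.TT (PB.cc b) i
        = ∑ k, b.repr ⁅b i, b j⁆ k • PB.TT (PB.cc b) k := by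
      intro i j
      apply (MvPolynomial.basisMonomials (Fin n) R).ext
      intro α
      rw [MvPolynomial.coe_basisMonomials]
      have h := PB.comm_mon b α.degree α le_rfl (b i) (b j)
      rw [PB.SS_br, PB.SS_b, PB.SS_b] at h
      exact h
    obtain ⟨F, hF⟩ := ex_rep b (fun i => PB.TT (PB.cc b) i) hT
    have h1 : ∀ α : Fin n → ℕ, F (Ord.mo x α) 1 =
        monomial (Finsupp.equivFunOnFinite.symm α) (1 : R) :=
      fun α => mo_apply (fun i β hβ => by
        rw [hx]
        show F (UniversalEnvelopingAlgebra.ι R (b i)) _ = _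
        rw [hF, PB.TT_le (PB.cc b) i β hβ]) _ α rfl
    obtain ⟨g, hg⟩ : ∃ g : UniversalEnvelopingAlgebra R L →ₗ[R] MvPolynomial (Fin n) R,
      ∀ u, g u = F u 1 := ⟨(LinearMap.applyₗ (1 : MvPolynomial (Fin n) R)) ∘ₗ F.toLinearMap,
        fun _ => rfl⟩
    have h2 : g ∘ₗ pm b = LinearMap.id := by
      apply (MvPolynomial.basisMonomials (Fin n) R).ext
      intro α
      rw [MvPolynomial.coe_basisMonomials, LinearMap.comp_apply, hpm, hg, h1, LinearMap.id_apply]
      apply congrArg (fun s => monomial s (1 : R))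
      ext l
      rfl
    intro u v huv
    have h3 := congrArg g huv
    have h4 : ∀ w, g (pm b w) = w := fun w => by
      have := LinearMap.congr_fun h2 w
      rwa [LinearMap.comp_apply, LinearMap.id_apply] at this
    rwa [h4, h4] at h3
  · intro u
    have h1 : u ∈ Submodule.span R (Set.range (Ord.mo x)) := by
      have := mo_top b
      rw [← hx] at this
      rw [this]
      trivial
    have h2 : Submodule.span R (Set.range (Ord.mo x)) ≤ LinearMap.range (pm b) := by
      rw [Submodule.span_le]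
      rintro v ⟨α, rfl⟩
      refine ⟨monomial (Finsupp.equivFunOnFinite.symm α) 1, ?_⟩
      rw [hpm]
      rfl
    exact h2 h1

end Pool.MFL
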