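import Pool.Agent.H51.MFL.S

/-!
# Board mfl (MP_84bfea_al), module CMX: commutators
-/

set_option autoImplicit false

open Module MvPolynomial

namespace Pool.MFL.CMX79

/-- The product of two elements with coefficients on the left. -/
theorem mul_li {S U τ : Type} [CommRing S] [Ring U] [Fintype τ] (e : S →+* U) (x : τ → U)
    (D : τ → S → S) (hx : ∀ i s, x i * e s = e s * x i + e (D i s)) (p q : S) (P Q : τ → S) :
    (e p + ∑ i, e (P i) * x i) * (e q + ∑ i, e (Q i) * x i) =
      e (p * q + ∑ i, P i * D i q) + ∑ j, e (p * Q j + q * P j + ∑ i, P i * D i (Q j)) * x j +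
        ∑ i, ∑ j, e (P i * Q j) * (x i * x j) := by
  have h1 : ∀ i s, e (P i) * x i * e s = e (s * P i) * x i + e (P i * D i s) := by
    intro i s
    rw [mul_assoc, hx, mul_add, ← mul_assoc, ← map_mul, ← map_mul, mul_comm s]
  have h2 : (∑ i, e (P i) * x i) * e q = ∑ i, e (q * P i) * x i + ∑ i, e (P i * D i q) := by
    rw [Finset.sum_mul, ← Finset.sum_add_distrib]
    exact Finset.sum_congr rfl fun i _ => h1 i q
  have h3 : (∑ i, e (P i) * x i) * (∑ j, e (Q j) * x j) =
      ∑ i, ∑ j, e (P i * Q j) * (x i * x j) + ∑ j, (∑ i, e (P i * D i (Q j))) * x j := by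
    have h4 : ∑ j, (∑ i, e (P i * D i (Q j))) * x j = ∑ i, ∑ j, e (P i * D i (Q j)) * x j := by
      rw [Finset.sum_comm]
      exact Finset.sum_congr rfl fun j _ => Finset.sum_mul _ _ _
    rw [h4, ← Finset.sum_add_distrib, Finset.sum_mul]
    refine Finset.sum_congr rfl fun i _ => ?_
    rw [← Finset.sum_add_distrib, Finset.mul_sum]
    refine Finset.sum_congr rfl fun j _ => ?_
    rw [← mul_assoc, h1, add_mul, mul_comm (Q j), mul_assoc]
  have h5 : ∑ j, e (p * Q j + q * P j + ∑ i, P i * D i (Q j)) * x j =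
      ∑ j, e (p * Q j) * x j + ∑ j, e (q * P j) * x j +
        ∑ j, (∑ i, e (P i * D i (Q j))) * x j := by
    rw [← Finset.sum_add_distrib, ← Finset.sum_add_distrib]
    refine Finset.sum_congr rfl fun j _ => ?_
    rw [map_add, map_add, map_sum, add_mul, add_mul]
  have h6 : e p * ∑ j, e (Q j) * x j = ∑ j, e (p * Q j) * x j := by
    rw [Finset.mul_sum]
    exact Finset.sum_congr rfl fun j _ => by rw [← mul_assoc, ← map_mul]
  rw [add_mul, mul_add, mul_add, h2, h3, h5, h6, map_add, map_mul, map_sum]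
  abel

theorem li_comm {S U τ : Type} [CommRing S] [Ring U] [Fintype τ] (e : S →+* U) (x : τ → U)
    (D : τ → S → S) (hx : ∀ i s, x i * e s = e s * x i + e (D i s))
    (B : τ → τ → S) (c : τ → τ → τ → S)
    (hxx : ∀ i j, x i * x j - x j * x i = e (B i j) + ∑ k, e (c i j k) * x k)
    (p q : S) (P Q : τ → S) :
    (e p + ∑ i, e (P i) * x i) * (e q + ∑ i, e (Q i) * x i) -
      (e q + ∑ i, e (Q i) * x i) * (e p + ∑ i, e (P i) * x i) =
      e (∑ i, ∑ j, P i * Q j * B i j + ∑ i, P i * D i q - ∑ i, Q i * D i p) +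
        ∑ k, e (∑ i, ∑ j, c i j k * (P i * Q j) + ∑ i, P i * D i (Q k) -
          ∑ i, Q i * D i (P k)) * x k := by
  rw [mul_li e x D hx, mul_li e x D hx]
  have h1 : ∑ i, ∑ j, e (Q i * P j) * (x i * x j) = ∑ i, ∑ j, e (P i * Q j) * (x j * x i) := by
    rw [Finset.sum_comm]
    exact Finset.sum_congr rfl fun i _ => Finset.sum_congr rfl fun j _ => by
      rw [mul_comm (Q j)]
  have h2 : ∑ i, ∑ j, e (P i * Q j) * (x i * x j) - ∑ i, ∑ j, e (P i * Q j) * (x j * x i) =
      e (∑ i, ∑ j, P i * Q j * B i j) + ∑ k, e (∑ i, ∑ j, c i j k * (P i * Q j)) * x k := by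
    have h3 : ∑ k, e (∑ i, ∑ j, c i j k * (P i * Q j)) * x k =
        ∑ i, ∑ j, ∑ k, e (P i * Q j) * (e (c i j k) * x k) := by
      rw [Finset.sum_congr rfl fun i _ => Finset.sum_comm, Finset.sum_comm]
      refine Finset.sum_congr rfl fun k _ => ?_
      rw [map_sum, Finset.sum_mul]
      refine Finset.sum_congr rfl fun i _ => ?_
      rw [map_sum, Finset.sum_mul]
      refine Finset.sum_congr rfl fun j _ => ?_
      rw [← mul_assoc (e (P i * Q j)), ← map_mul, mul_comm (c i j k)]
    rw [h3, ← Finset.sum_sub_distrib, map_sum, ← Finset.sum_add_distrib]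
    refine Finset.sum_congr rfl fun i _ => ?_
    rw [← Finset.sum_sub_distrib, map_sum, ← Finset.sum_add_distrib]
    refine Finset.sum_congr rfl fun j _ => ?_
    rw [← mul_sub, hxx, mul_add, Finset.mul_sum, ← map_mul]
  rw [h1]
  have h4 : ∀ a b c a' b' c' : U, a + b + c - (a' + b' + c') = (a - a') + (b - b') + (c - c') := by
    intro a b c a' b' c'
    abel
  rw [h4, h2, ← map_sub, ← Finset.sum_sub_distrib]
  have h5 : ∀ k, e (p * Q k + q * P k + ∑ i, P i * D i (Q k)) * x k -
      e (q * P k + p * Q k + ∑ i, Q i * D i (P k)) * x k =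
      e (∑ i, P i * D i (Q k) - ∑ i, Q i * D i (P k)) * x k := by
    intro k
    rw [← sub_mul, ← map_sub]
    congr 2
    ring
  rw [Finset.sum_congr rfl fun k _ => h5 k]
  have h6 : ∀ k, e (∑ i, ∑ j, c i j k * (P i * Q j) + ∑ i, P i * D i (Q k) -
          ∑ i, Q i * D i (P k)) * x k = e (∑ i, P i * D i (Q k) - ∑ i, Q i * D i (P k)) * x k +
          e (∑ i, ∑ j, c i j k * (P i * Q j)) * x k := by
    intro k
    rw [← add_mul, ← map_add]
    congr 2
    ring
  rw [Finset.sum_congr rfl fun k _ => h6 k, Finset.sum_add_distrib]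
  have h7 : (∑ i, ∑ j, P i * Q j * B i j + ∑ i, P i * D i q - ∑ i, Q i * D i p : S) =
      (p * q + ∑ i, P i * D i q - (q * p + ∑ i, Q i * D i p)) +
        ∑ i, ∑ j, P i * Q j * B i j := by ring
  rw [h7, map_add]
  abel

end Pool.MFL.CMX79

namespace Pool.MFL

attribute [local instance 100] LieRing.ofAssociativeRing

open Pool.MFL.CMX79 in
/-- CMX: commutators. -/
theorem t_cmx : CMXStmt := by
  intro R L σ τ _ _ _ _ _ b hb e he
  have hcomm : ∀ z w : σ ⊕ τ, UniversalEnvelopingAlgebra.ι R (b z) *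
      UniversalEnvelopingAlgebra.ι R (b w) - UniversalEnvelopingAlgebra.ι R (b w) *
      UniversalEnvelopingAlgebra.ι R (b z) =
      ∑ l, algebraMap R (UniversalEnvelopingAlgebra R L) (stc b z w (Sum.inl l)) *
        UniversalEnvelopingAlgebra.ι R (b (Sum.inl l)) +
      ∑ k, algebraMap R (UniversalEnvelopingAlgebra R L) (stc b z w (Sum.inr k)) *
        UniversalEnvelopingAlgebra.ι R (b (Sum.inr k)) := by
    intro z w
    have h2 : UniversalEnvelopingAlgebra.ι R ⁅b z, b w⁆ =
        UniversalEnvelopingAlgebra.ι R (b z) * UniversalEnvelopingAlgebra.ι R (b w) -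
          UniversalEnvelopingAlgebra.ι R (b w) * UniversalEnvelopingAlgebra.ι R (b z) := by
      rw [LieHom.map_lie]
      rfl
    rw [← h2]
    conv_lhs => rw [← b.sum_repr ⁅b z, b w⁆]
    rw [map_sum, Fintype.sum_sum_type]
    refine congrArg₂ (· + ·) (Finset.sum_congr rfl fun l _ => ?_)
      (Finset.sum_congr rfl fun l _ => ?_)
    · rw [map_smul, Algebra.smul_def]
      rfl
    · rw [map_smul, Algebra.smul_def]
      rfl
  have hCC : ∀ r : R, e (C (Polynomial.C r)) =
      Polynomial.C (algebraMap R (UniversalEnvelopingAlgebra R L) r) := by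
    intro r
    rw [he.hC, Polynomial.map_C]
  have hxX : ∀ (i : τ) (l : σ), Polynomial.C (UniversalEnvelopingAlgebra.ι R (b (Sum.inr i))) *
      e (X l) - e (X l) * Polynomial.C (UniversalEnvelopingAlgebra.ι R (b (Sum.inr i))) =
      e (DC (cX (stc b)) i (X l)) := by
    intro i l
    rw [DC, mkDerivation_X, he.hX, ← Polynomial.C_mul, ← Polynomial.C_mul, ← Polynomial.C_sub,
      hcomm, map_add, map_sum, map_sum, map_sum]
    have h1 : ∑ k, Polynomial.C (algebraMap R (UniversalEnvelopingAlgebra R L)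
        (stc b (Sum.inr i) (Sum.inl l) (Sum.inr k)) *
        UniversalEnvelopingAlgebra.ι R (b (Sum.inr k))) = 0 :=
      Finset.sum_eq_zero fun k _ => by
        rw [hb.idl, map_zero, zero_mul, map_zero]
    rw [h1, add_zero]
    refine Finset.sum_congr rfl fun m _ => ?_
    rw [map_mul e, he.hX, cX, hCC, Polynomial.C_mul]
  have hxC : ∀ (i : τ) (f : Polynomial R),
      Polynomial.C (UniversalEnvelopingAlgebra.ι R (b (Sum.inr i))) * e (C f) =
      e (C f) * Polynomial.C (UniversalEnvelopingAlgebra.ι R (b (Sum.inr i))) := by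
    intro i f
    rw [he.hC]
    ext n
    rw [Polynomial.coeff_mul_C, Polynomial.coeff_C_mul, Polynomial.coeff_map]
    exact (Algebra.commutes _ _).symm
  have hee : ∀ φ ψ : MvPolynomial σ (Polynomial R), e φ * e ψ = e ψ * e φ := fun φ ψ => by
    rw [← map_mul, mul_comm, map_mul]
  have hx : ∀ (i : τ) (φ : MvPolynomial σ (Polynomial R)),
      Polynomial.C (UniversalEnvelopingAlgebra.ι R (b (Sum.inr i))) * e φ =
      e φ * Polynomial.C (UniversalEnvelopingAlgebra.ι R (b (Sum.inr i))) +
        e (DC (cX (stc b)) i φ) := by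
    intro i φ
    induction φ using MvPolynomial.induction_on with
    | C f =>
      rw [hxC, ← algebraMap_eq, Derivation.map_algebraMap, map_zero, add_zero]
    | add φ ψ h1 h2 =>
      rw [map_add, mul_add, add_mul, h1, h2, map_add, map_add]
      abel
    | mul_X φ l h1 =>
      rw [map_mul, ← mul_assoc, h1, add_mul, mul_assoc, sub_eq_iff_eq_add.1 (hxX i l),
        Derivation.leibniz, map_add, smul_eq_mul, smul_eq_mul, map_mul, map_mul,
        hee (X l) (DC (cX (stc b)) i φ), mul_add, mul_assoc]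
      abel
  refine ⟨fun i φ => ?_, fun P Q => ?_⟩
  · rw [hx, add_sub_cancel_left]
  · have hxx : ∀ i j : τ, Polynomial.C (UniversalEnvelopingAlgebra.ι R (b (Sum.inr i))) *
        Polynomial.C (UniversalEnvelopingAlgebra.ι R (b (Sum.inr j))) -
        Polynomial.C (UniversalEnvelopingAlgebra.ι R (b (Sum.inr j))) *
        Polynomial.C (UniversalEnvelopingAlgebra.ι R (b (Sum.inr i))) =
        e (bC (cX (stc b)) i j) + ∑ k, e (C (cX (stc b) (Sum.inr i) (Sum.inr j) (Sum.inr k))) *
          Polynomial.C (UniversalEnvelopingAlgebra.ι R (b (Sum.inr k))) := by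
      intro i j
      rw [← Polynomial.C_mul, ← Polynomial.C_mul, ← Polynomial.C_sub, hcomm, map_add, map_sum,
        map_sum, bC, map_sum]
      refine congrArg₂ (· + ·) (Finset.sum_congr rfl fun l _ => ?_)
        (Finset.sum_congr rfl fun l _ => ?_)
      · rw [map_mul e, he.hX, cX, hCC, Polynomial.C_mul]
      · rw [cX, hCC, Polynomial.C_mul]
    exact li_comm e (fun i => Polynomial.C (UniversalEnvelopingAlgebra.ι R (b (Sum.inr i))))
      (fun i φ => DC (cX (stc b)) i φ) hx (fun i j => bC (cX (stc b)) i j)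
      (fun i j k => C (cX (stc b) (Sum.inr i) (Sum.inr j) (Sum.inr k))) hxx P.1 Q.1 P.2 Q.2

end Pool.MFL
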